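import Mathlib
import Pool.Agent.H590.PL.Stm

/-!
# SC: weights are scalings
-/

noncomputable section

namespace Pool.Agent.H695.PL

open H590PL MeasureTheory

theorem ip_smul (c : ℝ) (v x : P2) : ip (c • v) x = c * ip v x := by
  simp only [ip, Prod.smul_fst, Prod.smul_snd, smul_eq_mul]
  ring

theorem dt_smul (c d : ℝ) (v w : P2) : dt (c • v) (d • w) = c * d * dt v w := by
  simp only [dt, Prod.smul_fst, Prod.smul_snd, smul_eq_mul]
  ring

theorem rpow_p {p b : ℝ} (hp : 1 < p) (hb : 0 < b) : (b ^ (1 / p)) ^ p = b := by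
  rw [← Real.rpow_mul hb.le, one_div, inv_mul_cancel₀ (by linarith), Real.rpow_one]

theorem abs_part {p b u e : ℝ} (hb : 0 < b) : |b ^ (1 / p) * u| ^ e = (b ^ (1 / p)) ^ e * |u| ^ e := by
  have h : 0 < b ^ (1 / p) := Real.rpow_pos_of_pos hb _
  rw [abs_mul, abs_of_pos h, Real.mul_rpow h.le (abs_nonneg u)]

theorem Ph_eq {κ : Type} [Fintype κ] (p : ℝ) (hp : 1 < p) (v : κ → P2) (b : κ → ℝ)
    (hb : ∀ k, 0 < b k) (x : P2) : Ph p v b x = Ph p (fun k => b k ^ (1 / p) • v k) one x := by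
  unfold Ph one
  refine Finset.sum_congr rfl fun k _ => ?_
  rw [ip_smul, abs_part (hb k), rpow_p hp (hb k), one_mul]

theorem sq_part {p b : ℝ} (hp : 1 < p) (hb : 0 < b) :
    (b ^ (1 / p)) ^ 2 * (b ^ (1 / p)) ^ (p - 2) = b := by
  have h : 0 < b ^ (1 / p) := Real.rpow_pos_of_pos hb _
  have h2 : (b ^ (1 / p)) ^ 2 = (b ^ (1 / p)) ^ (2 : ℝ) := by
    rw [Real.rpow_ofNat]
  rw [h2, ← Real.rpow_add h]
  rw [show (2 : ℝ) + (p - 2) = p by ring]
  exact rpow_p hp hb

theorem DD_eq {κ : Type} [Fintype κ] (p : ℝ) (hp : 1 < p) (v : κ → P2) (b : κ → ℝ)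
    (hb : ∀ k, 0 < b k) (x : P2) : DD p v b x = DD p (fun k => b k ^ (1 / p) • v k) one x := by
  unfold DD one
  congr 1
  refine Finset.sum_congr rfl fun i _ => Finset.sum_congr rfl fun j _ => ?_
  rw [ip_smul, ip_smul, abs_part (hb i), abs_part (hb j), dt_smul]
  have h1 := sq_part hp (hb i)
  have h2 := sq_part hp (hb j)
  calc dt (v i) (v j) ^ 2 * (p * b i * |ip (v i) x| ^ (p - 2)) * (p * b j * |ip (v j) x| ^ (p - 2))
      = dt (v i) (v j) ^ 2 * (p * ((b i ^ (1 / p)) ^ 2 * (b i ^ (1 / p)) ^ (p - 2)) *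
        |ip (v i) x| ^ (p - 2)) * (p * ((b j ^ (1 / p)) ^ 2 * (b j ^ (1 / p)) ^ (p - 2)) *
        |ip (v j) x| ^ (p - 2)) := by rw [h1, h2]
    _ = _ := by ring

/-- SC: weights are scalings -/
theorem SC : S_SC := by
  intro κ _ p hp _ v b hb
  constructor
  · unfold FF
    refine integral_congr_ae (Filter.Eventually.of_forall fun x => ?_)
    show Real.exp (-(Ph p v b x)) = Real.exp (-(Ph p (fun k => b k ^ (1 / p) • v k) one x))
    rw [Ph_eq p hp v b hb x]
  · unfold AA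
    refine integral_congr_ae (Filter.Eventually.of_forall fun x => ?_)
    show Real.exp (-(Ph p v b x)) * DD p v b x =
      Real.exp (-(Ph p (fun k => b k ^ (1 / p) • v k) one x)) *
        DD p (fun k => b k ^ (1 / p) • v k) one x
    rw [Ph_eq p hp v b hb x, DD_eq p hp v b hb x]

end Pool.Agent.H695.PL
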